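import Pool.Agent.TOYV.Fin

/-!
Finite quaternionic structures with `-1 = 1` whose quaternions are the values of a symmetric
trilinear form with values in `F_2` are of elementary type.
-/

namespace Pool.Agent.Results.MP_d26ff6_al.TrilinearTheorem

/-- Let `S = (G, -1, q)` be a finite quaternionic structure with `-1 = 1`, and `τ : G × G × G → F_2`
a map, additive in the third variable and symmetric in the last two, such that
`q (a, b) = q (c, d)` iff `τ (a, b, x) = τ (c, d, x)` for all `x`.  Then `S` is of elementary
type. -/
theorem result (S : QS.QStruct) (hf : Finite S.G) (h : S.neg = 1)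
    (τ : S.G → S.G → S.G → ZMod 2)
    (h1 : ∀ a b x y, τ a b (x * y) = τ a b x + τ a b y) (h2 : ∀ a b x, τ a b x = τ a x b)
    (h3 : ∀ a b c d, S.q a b = S.q c d ↔ ∀ x, τ a b x = τ c d x) : QS.ElemType S :=
  Pool.Agent.TOYV.final_proof S h τ h1 h2 h3

end Pool.Agent.Results.MP_d26ff6_al.TrilinearTheorem
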